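import Pool.Agent.Helper3K9.ZF.Stm

/-!
# [COP] coprime polynomials give the projector in the span
-/

set_option autoImplicit false

open CategoryTheory Limits MonoidalCategory Polynomial

universe v u w w'

namespace Pool.Agent.Helper36K9.ZF

open Pool.Agent.Y112.SR Pool.Agent.Helper3K9.ZF

variable {C : Type u} [Category.{v} C] [Preadditive C] [MonoidalCategory C]
  [SymmetricCategory C] {K : Type w} [Field K]

/-- the endomorphisms which are combinations of realisations -/
theorem aeval_mem (R : SuperRealisation C K) {M : C} (f : M ⟶ M) (A : K[X]) :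
    aeval (R.H.map f).hom A ∈ Submodule.span K (Set.range fun g : M ⟶ M => (R.H.map g).hom) := by
  have hp : ∀ n : ℕ, ((R.H.map f).hom) ^ n ∈ Set.range fun g : M ⟶ M => (R.H.map g).hom := by
    intro n
    induction n with
    | zero =>
      refine ⟨𝟙 M, ?_⟩
      change (R.H.map (𝟙 M)).hom = _
      rw [CategoryTheory.Functor.map_id, ModuleCat.hom_id, pow_zero]
      rfl
    | succ n ih =>
      obtain ⟨g, hg⟩ := ih
      refine ⟨f ≫ g, ?_⟩
      change (R.H.map (f ≫ g)).hom = _
      have hg' : (R.H.map g).hom = ((R.H.map f).hom) ^ n := hg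
      rw [Functor.map_comp, ModuleCat.hom_comp, hg', pow_succ]
      rfl
  rw [aeval_eq_sum_range]
  exact Submodule.sum_mem _ fun n _ => Submodule.smul_mem _ _ (Submodule.subset_span (hp n))

theorem cop {C : Type u} [Category.{v} C] [Preadditive C] [Linear ℚ C] [MonoidalCategory C]
    [SymmetricCategory C] {K : Type w} [Field K] [CharZero K] (R : SuperRealisation C K) (M : C)
    (h : CoprimeC R M) : SpanC R M := by
  obtain ⟨f, A, B, ⟨a, b, hab⟩, hA, hB⟩ := h
  refine ⟨aeval (R.H.map f).hom (b * B), aeval_mem R f _, ?_, ?_⟩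
  · intro x hx
    have h1 : aeval (R.H.map f).hom (a * A) x + aeval (R.H.map f).hom (b * B) x = x := by
      rw [← LinearMap.add_apply, ← map_add, hab, map_one]
      rfl
    have h2 : aeval (R.H.map f).hom (a * A) x = 0 := by
      rw [map_mul]
      change aeval (R.H.map f).hom a (aeval (R.H.map f).hom A x) = 0
      rw [hA x hx, map_zero]
    rw [h2, zero_add] at h1
    exact h1
  · intro x hx
    rw [map_mul]
    change aeval (R.H.map f).hom b (aeval (R.H.map f).hom B x) = 0
    rw [hB x hx, map_zero]

theorem cop_ : S_COP.{v, u, w} := fun R M h => cop R M h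

end Pool.Agent.Helper36K9.ZF
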