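import Pool.Agent.Helper3K9.ZF.Stm

/-!
# [EAS] the easy directions
-/

set_option autoImplicit false

open CategoryTheory Limits MonoidalCategory Polynomial

universe v u w w'

namespace Pool.Agent.Helper36K9.ZF

open Pool.Agent.Y112.SR Pool.Agent.Helper3K9.ZF

theorem even_apply {C : Type u} [Category.{v} C] [Preadditive C] [MonoidalCategory C]
    [SymmetricCategory C] {K : Type w} [Field K] (R : SuperRealisation C K) {M : C}
    {x : R.H.obj M} (hx : x ∈ evenPart R M) : (R.par M).hom x = x := by
  have := LinearMap.mem_ker.1 hx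
  rwa [LinearMap.sub_apply, LinearMap.id_apply, sub_eq_zero] at this

theorem odd_apply {C : Type u} [Category.{v} C] [Preadditive C] [MonoidalCategory C]
    [SymmetricCategory C] {K : Type w} [Field K] (R : SuperRealisation C K) {M : C}
    {x : R.H.obj M} (hx : x ∈ oddPart R M) : (R.par M).hom x = -x := by
  have := LinearMap.mem_ker.1 hx
  rwa [LinearMap.add_apply, LinearMap.id_apply, add_eq_zero_iff_eq_neg] at this

theorem eas {C : Type u} [Category.{v} C] [Preadditive C] [Linear ℚ C] [MonoidalCategory C]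
    [MonoidalPreadditive C] [MonoidalLinear ℚ C] [SymmetricCategory C]
    {K : Type w} [Field K] [CharZero K] (R : SuperRealisation C K) (M : C)
    (h : R.CPlus M) : CoprimeC R M ∧ SpanC R M := by
  obtain ⟨f, hf⟩ := h
  have h1 : ∀ x, (2 : K) • (R.H.map f).hom x = x + (R.par M).hom x := by
    intro x
    have h2 := LinearMap.congr_fun (congrArg ModuleCat.Hom.hom hf) x
    simpa using h2
  have h2 : (2 : K) ≠ 0 := two_ne_zero
  have h3 : ∀ x ∈ evenPart R M, (R.H.map f).hom x = x := by
    intro x hx
    have h4 := h1 x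
    rw [even_apply R hx, ← two_smul K x] at h4
    exact smul_right_injective _ h2 h4
  have h4 : ∀ x ∈ oddPart R M, (R.H.map f).hom x = 0 := by
    intro x hx
    have h4 := h1 x
    rw [odd_apply R hx, add_neg_cancel] at h4
    exact (smul_eq_zero.1 h4).resolve_left h2
  refine ⟨⟨f, X - 1, X, ⟨-1, 1, by ring⟩, ?_, ?_⟩, ⟨(R.H.map f).hom,
    Submodule.subset_span ⟨f, rfl⟩, h3, h4⟩⟩
  · intro x hx
    rw [map_sub, aeval_X, map_one, LinearMap.sub_apply, h3 x hx]
    exact sub_self x
  · intro x hx
    rw [aeval_X, h4 x hx]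

theorem eas_ : S_EAS.{v, u, w} := fun R M h => eas R M h

end Pool.Agent.Helper36K9.ZF
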