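import Pool.Agent.Helper3K9.ZF.Stm
import Pool.Agent.Helper36K9.ZF.Eas

/-!
# [CPL] from a rational polynomial to the projector
-/

set_option autoImplicit false

open CategoryTheory Limits MonoidalCategory Polynomial

universe v u w w'

namespace Pool.Agent.Helper36K9.ZF

open Pool.Agent.Y112.SR Pool.Agent.Helper3K9.ZF

theorem map_smul {C : Type u} [Category.{v} C] [Preadditive C] [Linear ℚ C] [MonoidalCategory C]
    [SymmetricCategory C] {K : Type w} [Field K] (R : SuperRealisation C K)
    [CharZero K] {X Y : C} (q : ℚ) (f : X ⟶ Y) :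
    R.H.map (q • f) = (q : K) • R.H.map f := by
  have h1 : (q.den : K) • R.H.map (q • f) = (q.num : K) • R.H.map f := by
    rw [Nat.cast_smul_eq_nsmul, Int.cast_smul_eq_zsmul, ← Functor.map_nsmul, ← Functor.map_zsmul,
      ← Nat.cast_smul_eq_nsmul ℚ, ← Int.cast_smul_eq_zsmul ℚ, smul_smul, Rat.den_mul_eq_num]
  have h2 : (q.den : K) ≠ 0 := by exact_mod_cast q.den_nz
  rw [Rat.cast_def, div_eq_inv_mul, mul_smul, ← h1, smul_smul, inv_mul_cancel₀ h2, one_smul]

/-- every rational polynomial in the realisation of `f` is the realisation of an endomorphism -/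
theorem real_aeval {C : Type u} [Category.{v} C] [Preadditive C] [Linear ℚ C] [MonoidalCategory C]
    [SymmetricCategory C] {K : Type w} [Field K] (R : SuperRealisation C K)
    [CharZero K] {M : C} (f : M ⟶ M) (h : ℚ[X]) :
    ∃ g : M ⟶ M, (R.H.map g).hom = aeval (R.H.map f).hom (h.map (algebraMap ℚ K)) := by
  induction h using Polynomial.induction_on' with
  | add p q hp hq =>
    obtain ⟨g, hg⟩ := hp
    obtain ⟨g', hg'⟩ := hq
    refine ⟨g + g', ?_⟩
    rw [Functor.map_add, ModuleCat.hom_add, hg, hg', Polynomial.map_add, map_add]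
  | monomial n a =>
    have hp : ∃ g : M ⟶ M, (R.H.map g).hom = ((R.H.map f).hom) ^ n := by
      induction n with
      | zero =>
        refine ⟨𝟙 M, ?_⟩
        rw [CategoryTheory.Functor.map_id, ModuleCat.hom_id, pow_zero]
        rfl
      | succ n ih =>
        obtain ⟨g, hg⟩ := ih
        refine ⟨f ≫ g, ?_⟩
        rw [Functor.map_comp, ModuleCat.hom_comp, hg, pow_succ]
        rfl
    obtain ⟨g, hg⟩ := hp
    refine ⟨a • g, ?_⟩
    rw [map_smul, ModuleCat.hom_smul, hg, Polynomial.map_monomial, aeval_monomial]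
    ext x
    simp [Algebra.algebraMap_eq_smul_one]

theorem aeval_restrict {K : Type w} [Field K] {V : Type w} [AddCommGroup V] [Module K V]
    (T : Module.End K V) (N : Submodule K V) (hN : ∀ x ∈ N, T x ∈ N) (p : K[X]) (x : N) :
    ((aeval (T.restrict hN) p x : N) : V) = aeval T p (x : V) := by
  induction p using Polynomial.induction_on' generalizing x with
  | add p q hp hq =>
    rw [map_add, map_add, LinearMap.add_apply, LinearMap.add_apply, Submodule.coe_add, hp, hq]
  | monomial n a =>
    have h1 : ∀ (n : ℕ) (x : N), ((((T.restrict hN) ^ n) x : N) : V) = (T ^ n) (x : V) := by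
      intro n
      induction n with
      | zero => intro x; rfl
      | succ n ih =>
        intro x
        rw [pow_succ, pow_succ, Module.End.mul_apply, Module.End.mul_apply, ih]
        rfl
    rw [aeval_monomial, aeval_monomial, Module.End.mul_apply, Module.End.mul_apply]
    rw [Module.algebraMap_end_apply, Module.algebraMap_end_apply, Submodule.coe_smul, h1]

theorem cpl {C : Type u} [Category.{v} C] [Preadditive C] [Linear ℚ C] [MonoidalCategory C]
    [MonoidalPreadditive C] [MonoidalLinear ℚ C] [SymmetricCategory C]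
    {K : Type w} [Field K] [CharZero K] (R : SuperRealisation C K) (M : C) (f : M ⟶ M) (h : ℚ[X])
    (h0 : aeval (r0 R f) (h.map (algebraMap ℚ K)) = 1)
    (h1 : aeval (r1 R f) (h.map (algebraMap ℚ K)) = 0) : R.CPlus M := by
  obtain ⟨g, hg⟩ := real_aeval R f h
  obtain ⟨p, hp⟩ : ∃ p : K[X], p = h.map (algebraMap ℚ K) := ⟨_, rfl⟩
  rw [← hp] at h0 h1 hg
  have e0 : ∀ x ∈ evenPart R M, (R.H.map g).hom x = x := by
    intro x hx
    have h2 := aeval_restrict (R.H.map f).hom (evenPart R M) (hom_even R f) p ⟨x, hx⟩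
    rw [hg]
    refine h2.symm.trans ?_
    change ((aeval (r0 R f) p ⟨x, hx⟩ : evenPart R M) : R.H.obj M) = x
    rw [h0]
    rfl
  have e1 : ∀ x ∈ oddPart R M, (R.H.map g).hom x = 0 := by
    intro x hx
    have h2 := aeval_restrict (R.H.map f).hom (oddPart R M) (hom_odd R f) p ⟨x, hx⟩
    rw [hg]
    refine h2.symm.trans ?_
    change ((aeval (r1 R f) p ⟨x, hx⟩ : oddPart R M) : R.H.obj M) = 0
    rw [h1]
    rfl
  have hss : ∀ x, (R.par M).hom ((R.par M).hom x) = x := by
    intro x
    exact LinearMap.congr_fun (congrArg ModuleCat.Hom.hom (R.par_sq M)) x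
  refine ⟨g, ?_⟩
  ext x
  have m0 : x + (R.par M).hom x ∈ evenPart R M := by
    refine LinearMap.mem_ker.2 ?_
    rw [LinearMap.sub_apply, LinearMap.id_apply, map_add, hss]
    abel
  have m1 : x - (R.par M).hom x ∈ oddPart R M := by
    refine LinearMap.mem_ker.2 ?_
    rw [LinearMap.add_apply, LinearMap.id_apply, map_sub, hss]
    abel
  have h3 := e0 _ m0
  have h4 := e1 _ m1
  have h5 : (2 : K) • (R.H.map g).hom x = x + (R.par M).hom x := by
    rw [map_sub, sub_eq_zero] at h4
    rw [map_add, ← h4, ← two_smul K] at h3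
    exact h3
  simpa using h5

theorem cpl_ : S_CPL.{v, u, w} := fun R M f h h0 h1 => cpl R M f h h0 h1

end Pool.Agent.Helper36K9.ZF
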