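import Pool.Agent.Helper3K9.ZF.Stm

/-!
# [TRF] the zeta function does not depend on the field
-/

set_option autoImplicit false

open Polynomial

universe w w'

namespace Pool.Agent.Helper36K9.ZF

open Pool.Agent.Helper3K9.ZF

theorem mk_eq {K : Type w} [Field K] [CharZero K] (L : ℕ → K) (q : ℕ → ℚ) (h : ∀ n, L n = q n) :
    (PowerSeries.mk fun n => if n = 0 then 0 else L n) =
      PowerSeries.map (algebraMap ℚ K) (PowerSeries.mk fun n => if n = 0 then 0 else q n) := by
  ext n
  rw [PowerSeries.coeff_map, PowerSeries.coeff_mk, PowerSeries.coeff_mk]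
  split_ifs
  · simp
  · rw [h n]
    simp

theorem zeta_iff {K : Type w} [Field K] [CharZero K] (L : ℕ → K) (q : ℕ → ℚ) (h : ∀ n, L n = q n)
    (P Q : ℚ[X]) : IsZeta L P Q ↔ P.coeff 0 = 1 ∧ Q.coeff 0 = 1 ∧
      ((X * (derivative P * Q - P * derivative Q) : ℚ[X]) : PowerSeries ℚ) =
        ((P * Q : ℚ[X]) : PowerSeries ℚ) * PowerSeries.mk fun n => if n = 0 then 0 else q n := by
  unfold IsZeta
  rw [mk_eq L q h, Polynomial.polynomial_map_coe, Polynomial.polynomial_map_coe, ← map_mul]
  have h1 := (PowerSeries.map_injective (algebraMap ℚ K) (algebraMap ℚ K).injective).eq_iff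
    (a := ((X * (derivative P * Q - P * derivative Q) : ℚ[X]) : PowerSeries ℚ))
    (b := ((P * Q : ℚ[X]) : PowerSeries ℚ) * PowerSeries.mk fun n => if n = 0 then 0 else q n)
  rw [h1]

theorem trf : S_TRF.{w, w'} := by
  intro K _ _ K' _ _ L L' P Q h hz
  choose q hq using h
  rw [zeta_iff L q (fun n => (hq n).1)] at hz
  rw [zeta_iff L' q (fun n => (hq n).2)]
  exact hz

end Pool.Agent.Helper36K9.ZF
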